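import Mathlib
import Pool.Agent.H42.IsoCol

namespace Pool.Agent.Results.MP_a23160_lc.Full

theorem result : ∃ f : ℝ → Bool, ∀ X : Set ℝ,
    (∃ i : Bool, ∀ x ∈ X, ∀ y ∈ X, x ≠ y → f |x - y| = i) → X.Countable := by
  classical
  obtain ⟨g, g1, g2⟩ := Pool.Agent.H42.IsoCol.main
  have h : ∀ z, g |z| ↔ g z := fun z => by
    rcases abs_choice z with c | c <;> rw [c]
    exact g1 z
  refine ⟨fun z => decide (g z), fun X ⟨i, hi⟩ => ?_⟩
  by_contra hX
  obtain ⟨⟨x, hx, y, hy, a1, a2⟩, z, hz, w, hw, b1, b2⟩ := g2 X hX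
  have c1 := hi x hx y hy a1
  have c2 := hi z hz w hw b1
  simp only [h, a2, b2, decide_true, decide_false] at c1 c2
  exact Bool.noConfusion (c1.trans c2.symm)

end Pool.Agent.Results.MP_a23160_lc.Full
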